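import Mathlib

set_option autoImplicit false

/-! Walks with few distinct labels, and the trace of a power of a random symmetric matrix with
independent centred entries. -/

open Finset

namespace Pool.Agent.TH432.NI

variable {V E : Type} [Fintype V] [DecidableEq V] [Fintype E] [DecidableEq E]

/-- labels of the steps of a walk -/
def labs (lab : V → V → E) {m : ℕ} (w : Fin (m + 1) → V) : Fin m → E :=
  fun s => lab (w s.castSucc) (w s.succ)

/-- the set of labels of a walk -/
def ims (lab : V → V → E) {m : ℕ} (w : Fin (m + 1) → V) : Finset E :=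
  Finset.univ.image (labs lab w)

/-- all steps are along the relation -/
def Valid (adj : V → V → Prop) {m : ℕ} (w : Fin (m + 1) → V) : Prop :=
  ∀ s : Fin m, adj (w s.castSucc) (w s.succ)

omit [Fintype V] [DecidableEq V] [Fintype E] in
theorem ims_cons (lab : V → V → E) {m : ℕ} (a : V) (w : Fin (m + 1) → V) :
    ims lab (Fin.cons a w : Fin (m + 2) → V) = insert (lab a (w 0)) (ims lab w) := by
  ext e
  simp only [ims, Finset.mem_image, Finset.mem_univ, true_and, Finset.mem_insert, labs]
  constructor
  · rintro ⟨s, hs⟩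
    revert hs
    refine Fin.cases (fun hs => ?_) (fun s hs => ?_) s
    · left
      rw [← hs]
      simp
    · right
      refine ⟨s, ?_⟩
      rw [← hs, ← Fin.succ_castSucc]
      simp
  · rintro (h | ⟨s, hs⟩)
    · exact ⟨0, by rw [h]; simp⟩
    · refine ⟨s.succ, ?_⟩
      rw [← hs, ← Fin.succ_castSucc]
      simp

omit [Fintype V] [DecidableEq V] in
theorem valid_cons (adj : V → V → Prop) {m : ℕ} (a : V) (w : Fin (m + 1) → V) :
    Valid adj (Fin.cons a w : Fin (m + 2) → V) ↔ adj a (w 0) ∧ Valid adj w := by
  simp only [Valid]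
  rw [Fin.forall_fin_succ]
  refine and_congr (by simp) (forall_congr' fun s => ?_)
  rw [← Fin.succ_castSucc]
  simp

omit [Fintype V] [DecidableEq V] [Fintype E] in
theorem card_ims_le (lab : V → V → E) {m : ℕ} (w : Fin (m + 1) → V) : (ims lab w).card ≤ m := by
  refine Finset.card_image_le.trans ?_
  simp

omit [DecidableEq V] in
theorem sum_cons {M : Type} [AddCommMonoid M] {m : ℕ} (f : (Fin (m + 2) → V) → M) :
    ∑ w, f w = ∑ w : Fin (m + 1) → V, ∑ a : V, f (Fin.cons a w) := by
  rw [Finset.sum_comm, ← Fintype.sum_prod_type']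
  exact (Fintype.sum_equiv (Fin.consEquiv (fun _ : Fin (m + 2) => V)) _ _ (fun x => rfl)).symm

omit [DecidableEq V] [Fintype E] in
open Classical in
/-- walks with few distinct labels are few -/
theorem count (lab : V → V → E) (adj : V → V → Prop)
    (hinj : ∀ a a' b, adj a b → adj a' b → lab a b = lab a' b → a = a') (m t : ℕ) :
    (Finset.univ.filter (fun w : Fin (m + 1) → V => Valid adj w ∧ (ims lab w).card ≤ t)).card ≤
      m.factorial * Fintype.card V ^ (t + 1) := by
  induction m generalizing t with
  | zero =>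
    refine (Finset.card_le_univ _).trans ?_
    simp only [Nat.factorial_zero, one_mul, Fintype.card_fun, Fintype.card_fin, zero_add, pow_one]
    rcases Nat.eq_zero_or_pos (Fintype.card V) with h | h
    · rw [h]; simp
    · exact Nat.le_self_pow (by omega) _
  | succ m ih =>
    rw [Finset.card_filter, sum_cons]
    have key : ∀ w : Fin (m + 1) → V,
        (∑ a : V, if Valid adj (Fin.cons a w : Fin (m + 2) → V) ∧
          (ims lab (Fin.cons a w : Fin (m + 2) → V)).card ≤ t then 1 else 0) ≤
        m * (if Valid adj w ∧ (ims lab w).card ≤ t then 1 else 0) +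
        Fintype.card V * (if Valid adj w ∧ (ims lab w).card + 1 ≤ t then 1 else 0) := by
      intro w
      by_cases hv : Valid adj w
      · have h1 : ∀ a : V, (if Valid adj (Fin.cons a w : Fin (m + 2) → V) ∧
            (ims lab (Fin.cons a w : Fin (m + 2) → V)).card ≤ t then 1 else 0) ≤
            (if (adj a (w 0) ∧ lab a (w 0) ∈ ims lab w) ∧ (ims lab w).card ≤ t then 1 else 0) +
            (if (ims lab w).card + 1 ≤ t then 1 else 0) := by
          intro a
          rw [valid_cons, ims_cons]
          by_cases ha : adj a (w 0)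
          · by_cases hm : lab a (w 0) ∈ ims lab w
            · rw [Finset.insert_eq_of_mem hm]
              simp only [ha, hv, hm, true_and]
              omega
            · rw [Finset.card_insert_of_notMem hm]
              simp only [ha, hv, hm, true_and]
              omega
          · simp [ha]
        refine (Finset.sum_le_sum fun a _ => h1 a).trans ?_
        rw [Finset.sum_add_distrib]
        refine add_le_add ?_ ?_
        · by_cases ht : (ims lab w).card ≤ t
          · simp only [hv, ht, and_true, if_true, mul_one]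
            rw [← Finset.card_filter]
            refine le_trans ?_ (card_ims_le lab w)
            refine Finset.card_le_card_of_injOn (fun a => lab a (w 0)) ?_ ?_
            · intro a ha
              simp only [Finset.coe_filter, Finset.mem_univ, true_and, Set.mem_ofPred_eq] at ha
              exact ha.2
            · intro a ha a' ha' h
              simp only [Finset.coe_filter, Finset.mem_univ, true_and, Set.mem_ofPred_eq] at ha ha'
              exact hinj a a' (w 0) ha.1 ha'.1 h
          · simp [ht]
        · simp [hv]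
      · have h1 : ∀ a : V, (if Valid adj (Fin.cons a w : Fin (m + 2) → V) ∧
            (ims lab (Fin.cons a w : Fin (m + 2) → V)).card ≤ t then 1 else 0) = 0 := by
          intro a
          rw [valid_cons]
          simp [hv]
        rw [Finset.sum_congr rfl fun a _ => h1 a]
        simp
    refine (Finset.sum_le_sum fun w _ => key w).trans ?_
    rw [Finset.sum_add_distrib, ← Finset.mul_sum, ← Finset.mul_sum, ← Finset.card_filter,
      ← Finset.card_filter]
    have h1 := ih t
    have h2 : Fintype.card V * (Finset.univ.filter (fun w : Fin (m + 1) → V =>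
        Valid adj w ∧ (ims lab w).card + 1 ≤ t)).card ≤
        m.factorial * Fintype.card V ^ (t + 1) := by
      rcases Nat.eq_zero_or_pos t with rfl | ht
      · simp
      · obtain ⟨t, rfl⟩ : ∃ t', t = t' + 1 := ⟨t - 1, by omega⟩
        have h3 := ih t
        simp only [Nat.add_le_add_iff_right]
        calc _ ≤ Fintype.card V * (m.factorial * Fintype.card V ^ (t + 1)) :=
              Nat.mul_le_mul_left _ h3
          _ = _ := by ring
    rw [Nat.factorial_succ]
    calc _ ≤ m * (m.factorial * Fintype.card V ^ (t + 1)) +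
          m.factorial * Fintype.card V ^ (t + 1) := add_le_add (Nat.mul_le_mul_left _ h1) h2
      _ = _ := by ring

/-- product of the entries of a matrix along a walk -/
def pr (X : Matrix V V ℝ) {m : ℕ} (w : Fin (m + 1) → V) : ℝ :=
  ∏ s : Fin m, X (w s.castSucc) (w s.succ)

omit [Fintype V] [DecidableEq V] in
theorem pr_cons (X : Matrix V V ℝ) {m : ℕ} (a : V) (w : Fin (m + 1) → V) :
    pr X (Fin.cons a w : Fin (m + 2) → V) = X a (w 0) * pr X w := by
  unfold pr
  rw [Fin.prod_univ_succ]
  congr 1

theorem pow_apply' (X : Matrix V V ℝ) (m : ℕ) (a b : V) :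
    (X ^ m) a b = ∑ w : Fin (m + 1) → V, if w 0 = a ∧ w (Fin.last m) = b then pr X w else 0 := by
  induction m generalizing a with
  | zero =>
    rw [pow_zero, Matrix.one_apply]
    rw [← Equiv.sum_comp (Equiv.funUnique (Fin 1) V).symm]
    simp only [pr, Finset.univ_eq_empty, Finset.prod_empty]
    have : ∀ x : V, ((Equiv.funUnique (Fin 1) V).symm x 0 = a ∧
        (Equiv.funUnique (Fin 1) V).symm x (Fin.last 0) = b) ↔ (x = a ∧ a = b) := by
      intro x
      simp only [Equiv.funUnique_symm_apply, uniqueElim_const]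
      constructor
      · rintro ⟨rfl, rfl⟩; exact ⟨rfl, rfl⟩
      · rintro ⟨rfl, rfl⟩; exact ⟨rfl, rfl⟩
    simp only [this]
    by_cases h : a = b
    · simp [h]
    · simp [h]
  | succ m ih =>
    rw [pow_succ', Matrix.mul_apply, sum_cons]
    simp only [pr_cons, ih]
    simp only [Finset.mul_sum]
    rw [Finset.sum_comm]
    refine Finset.sum_congr rfl fun w _ => ?_
    have h1 : ∀ c : V, X a c * (if w 0 = c ∧ w (Fin.last m) = b then pr X w else 0) =
        if c = w 0 then (if w (Fin.last m) = b then X a (w 0) * pr X w else 0) else 0 := by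
      intro c
      by_cases hc : c = w 0
      · subst hc; simp
      · have : ¬ (w 0 = c) := fun h => hc h.symm
        simp [hc, this]
    have h2 : ∀ c : V, (if (Fin.cons c w : Fin (m + 2) → V) 0 = a ∧
        (Fin.cons c w : Fin (m + 2) → V) (Fin.last (m + 1)) = b then X c (w 0) * pr X w else 0) =
        if c = a then (if w (Fin.last m) = b then X a (w 0) * pr X w else 0) else 0 := by
      intro c
      rw [← Fin.succ_last]
      simp only [Fin.cons_zero, Fin.cons_succ]
      by_cases hc : c = a
      · subst hc; simp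
      · simp [hc]
    rw [Finset.sum_congr rfl fun c _ => h1 c, Finset.sum_congr rfl fun c _ => h2 c]
    simp

theorem trace_pow (X : Matrix V V ℝ) (m : ℕ) :
    (X ^ m).trace = ∑ w : Fin (m + 1) → V, if w (Fin.last m) = w 0 then pr X w else 0 := by
  unfold Matrix.trace
  simp only [Matrix.diag_apply, pow_apply']
  rw [Finset.sum_comm]
  refine Finset.sum_congr rfl fun w _ => ?_
  have h1 : ∀ a : V, (if w 0 = a ∧ w (Fin.last m) = a then pr X w else 0) =
      if a = w 0 then (if w (Fin.last m) = w 0 then pr X w else 0) else 0 := by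
    intro a
    by_cases ha : a = w 0
    · subst ha; simp
    · have : ¬ (w 0 = a) := fun h => ha h.symm
      simp [ha, this]
  rw [Finset.sum_congr rfl fun c _ => h1 c]
  simp

/-- expectation of a product of functions of independent signs -/
theorem expect_prod (wt z : E → Bool → ℝ) {m : ℕ} (l : Fin m → E) :
    ∑ s : E → Bool, (∏ e, wt e (s e)) * ∏ i : Fin m, z (l i) (s (l i)) =
      ∏ e, ∑ b : Bool, wt e b * z e b ^ (Finset.univ.filter (fun i => l i = e)).card := by
  rw [Finset.prod_univ_sum, Fintype.piFinset_univ]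
  refine Finset.sum_congr rfl fun s _ => ?_
  rw [Finset.prod_mul_distrib]
  congr 1
  rw [← Finset.prod_fiberwise Finset.univ l (fun i => z (l i) (s (l i)))]
  refine Finset.prod_congr rfl fun e _ => ?_
  rw [← Finset.prod_const]
  refine Finset.prod_congr rfl fun i hi => ?_
  rw [(Finset.mem_filter.1 hi).2]

theorem expect_bound (wt z : E → Bool → ℝ) (ρ : ℝ) (hρ : 0 ≤ ρ)
    (h0 : ∀ e, ∑ b : Bool, wt e b = 1) (h1 : ∀ e, ∑ b : Bool, wt e b * z e b = 0)
    (h2 : ∀ e, ∀ m : ℕ, 2 ≤ m → |∑ b : Bool, wt e b * z e b ^ m| ≤ 2 ^ m * ρ)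
    {m : ℕ} (l : Fin m → E) :
    |∑ s : E → Bool, (∏ e, wt e (s e)) * ∏ i : Fin m, z (l i) (s (l i))| ≤
      if 2 * (Finset.univ.image l).card ≤ m then 2 ^ m * ρ ^ (Finset.univ.image l).card else 0 := by
  rw [expect_prod]
  set c : E → ℕ := fun e => (Finset.univ.filter (fun i => l i = e)).card with hc
  have hsum : ∑ e ∈ Finset.univ.image l, c e = m := by
    rw [hc, ← Finset.card_eq_sum_card_image]
    simp
  have hpos : ∀ e ∈ Finset.univ.image l, 1 ≤ c e := by
    intro e he
    obtain ⟨i, _, hi⟩ := Finset.mem_image.1 he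
    exact Finset.card_pos.2 ⟨i, by simp [hi]⟩
  have hout : ∀ e, e ∉ Finset.univ.image l → c e = 0 := by
    intro e he
    rw [hc]
    simp only [Finset.card_eq_zero, Finset.filter_eq_empty_iff]
    intro i _ hi
    exact he (Finset.mem_image.2 ⟨i, Finset.mem_univ _, hi⟩)
  have hprod : ∏ e, ∑ b : Bool, wt e b * z e b ^ c e =
      ∏ e ∈ Finset.univ.image l, ∑ b : Bool, wt e b * z e b ^ c e := by
    symm
    apply Finset.prod_subset (Finset.subset_univ _)
    intro e _ he
    rw [hout e he]
    simpa using h0 e
  rw [hprod]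
  split_ifs with h
  · rw [Finset.abs_prod]
    have hb : ∀ e ∈ Finset.univ.image l, |∑ b : Bool, wt e b * z e b ^ c e| ≤ 2 ^ c e * ρ := by
      intro e he
      have h3 := hpos e he
      rcases Nat.lt_or_ge 1 (c e) with h4 | h4
      · exact h2 e (c e) h4
      · have h5 : c e = 1 := by omega
        rw [h5]
        simp only [pow_one]
        rw [h1 e, abs_zero]
        positivity
    refine (Finset.prod_le_prod (fun e _ => abs_nonneg _) hb).trans ?_
    rw [Finset.prod_mul_distrib, Finset.prod_pow_eq_pow_sum, hsum, Finset.prod_const]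
  · -- some multiplicity is one
    have h3 : ∃ e ∈ Finset.univ.image l, c e = 1 := by
      by_contra hcon
      push Not at hcon
      apply h
      calc 2 * (Finset.univ.image l).card = ∑ e ∈ Finset.univ.image l, 2 := by
            rw [Finset.sum_const]; simp [mul_comm]
        _ ≤ ∑ e ∈ Finset.univ.image l, c e := Finset.sum_le_sum fun e he => by
            have := hpos e he
            have := hcon e he
            omega
        _ = m := hsum
    obtain ⟨e, he, hce⟩ := h3
    rw [Finset.prod_eq_zero he]
    · simp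
    · rw [hce]
      simpa using h1 e

open Classical in
/-- a symmetric random matrix with independent entries -/
noncomputable def Xs (lab : V → V → E) (adj : V → V → Prop) (z : E → Bool → ℝ) (s : E → Bool) :
    Matrix V V ℝ := fun a b => if adj a b then z (lab a b) (s (lab a b)) else 0

omit [Fintype V] [DecidableEq V] [Fintype E] [DecidableEq E] in
open Classical in
theorem pr_Xs (lab : V → V → E) (adj : V → V → Prop) (z : E → Bool → ℝ) (s : E → Bool) {m : ℕ}
    (w : Fin (m + 1) → V) :
    pr (Xs lab adj z s) w =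
      if Valid adj w then ∏ i : Fin m, z (labs lab w i) (s (labs lab w i)) else 0 := by
  unfold pr Xs
  split_ifs with h
  · refine Finset.prod_congr rfl fun i _ => ?_
    rw [if_pos (h i)]
    rfl
  · unfold Valid at h
    push Not at h
    obtain ⟨i, hi⟩ := h
    exact Finset.prod_eq_zero (Finset.mem_univ i) (by rw [if_neg hi])

/-- the expected trace of an even power -/
theorem expect_trace (lab : V → V → E) (adj : V → V → Prop)
    (hinj : ∀ a a' b, adj a b → adj a' b → lab a b = lab a' b → a = a')
    (wt z : E → Bool → ℝ) (ρ : ℝ) (hρ : 0 ≤ ρ)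
    (h0 : ∀ e, ∑ b : Bool, wt e b = 1) (h1 : ∀ e, ∑ b : Bool, wt e b * z e b = 0)
    (h2 : ∀ e, ∀ m : ℕ, 2 ≤ m → |∑ b : Bool, wt e b * z e b ^ m| ≤ 2 ^ m * ρ) (k : ℕ)
    (hV : 1 ≤ ρ * Fintype.card V) :
    ∑ s : E → Bool, (∏ e, wt e (s e)) * (Xs lab adj z s ^ (2 * k)).trace ≤
      (k + 1) * (2 * k).factorial * Fintype.card V * (4 * (ρ * Fintype.card V)) ^ k := by
  classical
  have hstep : ∑ s : E → Bool, (∏ e, wt e (s e)) * (Xs lab adj z s ^ (2 * k)).trace =
      ∑ w : Fin (2 * k + 1) → V, if w (Fin.last (2 * k)) = w 0 ∧ Valid adj w then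
        ∑ s : E → Bool, (∏ e, wt e (s e)) * ∏ i : Fin (2 * k), z (labs lab w i) (s (labs lab w i))
        else 0 := by
    simp only [trace_pow, pr_Xs, Finset.mul_sum]
    rw [Finset.sum_comm]
    refine Finset.sum_congr rfl fun w _ => ?_
    by_cases hw : w (Fin.last (2 * k)) = w 0
    · by_cases hv : Valid adj w
      · simp [hw, hv]
      · simp [hv]
    · simp [hw]
  rw [hstep]
  have hle : ∀ w : Fin (2 * k + 1) → V, (if w (Fin.last (2 * k)) = w 0 ∧ Valid adj w then
        ∑ s : E → Bool, (∏ e, wt e (s e)) * ∏ i : Fin (2 * k), z (labs lab w i) (s (labs lab w i))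
        else 0) ≤ ∑ t ∈ Finset.range (k + 1),
          4 ^ k * ρ ^ t * (if Valid adj w ∧ (ims lab w).card ≤ t then 1 else 0) := by
    intro w
    have hnn : ∀ t ∈ Finset.range (k + 1),
        0 ≤ 4 ^ k * ρ ^ t * (if Valid adj w ∧ (ims lab w).card ≤ t then (1 : ℝ) else 0) := by
      intro t _
      split_ifs <;> positivity
    split_ifs with hw
    · have hb := expect_bound wt z ρ hρ h0 h1 h2 (labs lab w)
      refine (le_abs_self _).trans (hb.trans ?_)
      change (if 2 * (ims lab w).card ≤ 2 * k then 2 ^ (2 * k) * ρ ^ (ims lab w).card else 0) ≤ _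
      split_ifs with ht
      · have hmem : (ims lab w).card ∈ Finset.range (k + 1) := by
          rw [Finset.mem_range]; omega
        refine le_trans ?_ (Finset.single_le_sum hnn hmem)
        rw [if_pos ⟨hw.2, le_refl _⟩, pow_mul]
        norm_num
      · exact Finset.sum_nonneg hnn
    · exact Finset.sum_nonneg hnn
  refine (Finset.sum_le_sum fun w _ => hle w).trans ?_
  rw [Finset.sum_comm]
  have hterm : ∀ t ∈ Finset.range (k + 1), ∑ w : Fin (2 * k + 1) → V,
      4 ^ k * ρ ^ t * (if Valid adj w ∧ (ims lab w).card ≤ t then (1 : ℝ) else 0) ≤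
      (2 * k).factorial * Fintype.card V * (4 * (ρ * Fintype.card V)) ^ k := by
    intro t ht
    rw [← Finset.mul_sum]
    have hc := count lab adj hinj (2 * k) t
    have hc' : ∑ w : Fin (2 * k + 1) → V,
        (if Valid adj w ∧ (ims lab w).card ≤ t then (1 : ℝ) else 0) ≤
        (2 * k).factorial * (Fintype.card V : ℝ) ^ (t + 1) := by
      rw [← Finset.sum_filter, Finset.sum_const, nsmul_eq_mul, mul_one]
      exact_mod_cast hc
    calc 4 ^ k * ρ ^ t * ∑ w : Fin (2 * k + 1) → V,
          (if Valid adj w ∧ (ims lab w).card ≤ t then (1 : ℝ) else 0)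
        ≤ 4 ^ k * ρ ^ t * ((2 * k).factorial * (Fintype.card V : ℝ) ^ (t + 1)) :=
          mul_le_mul_of_nonneg_left hc' (by positivity)
      _ = (2 * k).factorial * Fintype.card V * (4 ^ k * (ρ * Fintype.card V) ^ t) := by
          rw [mul_pow]; ring
      _ ≤ (2 * k).factorial * Fintype.card V * (4 ^ k * (ρ * Fintype.card V) ^ k) := by
          apply mul_le_mul_of_nonneg_left _ (by positivity)
          apply mul_le_mul_of_nonneg_left _ (by positivity)
          apply pow_le_pow_right₀ hV
          have := Finset.mem_range.1 ht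
          omega
      _ = _ := by rw [mul_pow 4]
  refine (Finset.sum_le_sum hterm).trans ?_
  rw [Finset.sum_const, nsmul_eq_mul, Finset.card_range]
  push_cast
  apply le_of_eq
  ring

/-- some sample is at most the average -/
theorem exists_le_avg (wt : E → Bool → ℝ) (hpos : ∀ e b, 0 ≤ wt e b)
    (h0 : ∀ e, ∑ b : Bool, wt e b = 1) (f : (E → Bool) → ℝ) (B : ℝ)
    (h : ∑ s : E → Bool, (∏ e, wt e (s e)) * f s ≤ B) : ∃ s, f s ≤ B := by
  by_contra hcon
  push Not at hcon
  have hone : ∑ s : E → Bool, (∏ e, wt e (s e)) = 1 := by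
    have := Finset.prod_univ_sum (fun _ : E => (Finset.univ : Finset Bool)) wt
    rw [Fintype.piFinset_univ] at this
    rw [← this, Finset.prod_congr rfl fun e _ => h0 e]
    simp
  have hw : ∀ s : E → Bool, 0 ≤ ∏ e, wt e (s e) := fun s =>
    Finset.prod_nonneg fun e _ => hpos e _
  have h3 : ∑ s : E → Bool, (∏ e, wt e (s e)) * (f s - B) ≤ 0 := by
    simp only [mul_sub, Finset.sum_sub_distrib, ← Finset.sum_mul, hone]
    linarith
  have h4 : ∀ s ∈ (Finset.univ : Finset (E → Bool)), 0 ≤ (∏ e, wt e (s e)) * (f s - B) :=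
    fun s _ => mul_nonneg (hw s) (by linarith [hcon s])
  have h5 : ∀ s ∈ (Finset.univ : Finset (E → Bool)), (∏ e, wt e (s e)) * (f s - B) = 0 := by
    rw [← Finset.sum_eq_zero_iff_of_nonneg h4]
    exact le_antisymm h3 (Finset.sum_nonneg h4)
  have h6 : ∀ s : E → Bool, ∏ e, wt e (s e) = 0 := by
    intro s
    have := h5 s (Finset.mem_univ s)
    rcases mul_eq_zero.1 this with h | h
    · exact h
    · linarith [hcon s]
  rw [Finset.sum_congr rfl fun s _ => h6 s] at hone
  simp at hone

end Pool.Agent.TH432.NI
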