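import Mathlib
import Pool.Agent.TH432.NI.Walk

set_option autoImplicit false

/-! Rounding a matrix with entries in `[-1, 1]` to a sign matrix with a small spectral error. -/

open Finset

namespace Pool.Agent.TH432.NI

/-- square of the Euclidean norm -/
def n2 {ι : Type} [Fintype ι] (f : ι → ℝ) : ℝ := ∑ i, f i ^ 2

section
variable {ι κ : Type} [Fintype ι] [Fintype κ] [DecidableEq ι]

omit [DecidableEq ι] in
theorem n2_nonneg (f : ι → ℝ) : 0 ≤ n2 f := Finset.sum_nonneg fun _ _ => sq_nonneg _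

omit [DecidableEq ι] in
theorem n2_eq_dot (f : ι → ℝ) : n2 f = f ⬝ᵥ f := by
  unfold n2 dotProduct
  exact Finset.sum_congr rfl fun i _ => sq (f i)

omit [DecidableEq ι] in
/-- bound by the Frobenius norm -/
theorem n2_mulVec_le (Y : Matrix ι κ ℝ) (f : κ → ℝ) :
    n2 (Y.mulVec f) ≤ (∑ a, ∑ b, Y a b ^ 2) * n2 f := by
  unfold n2 Matrix.mulVec dotProduct
  rw [Finset.sum_mul]
  exact Finset.sum_le_sum fun a _ => Finset.sum_mul_sq_le_sq_mul_sq _ _ _

theorem n2_sq_le (T : Matrix ι ι ℝ) (hT : T.transpose = T) (f : ι → ℝ) :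
    n2 (T.mulVec f) ^ 2 ≤ n2 ((T ^ 2).mulVec f) * n2 f := by
  have h1 : n2 (T.mulVec f) = f ⬝ᵥ ((T ^ 2).mulVec f) := by
    rw [n2_eq_dot, sq, ← Matrix.mulVec_mulVec, Matrix.dotProduct_mulVec f T,
      ← Matrix.mulVec_transpose, hT]
  rw [h1]
  unfold dotProduct
  refine (Finset.sum_mul_sq_le_sq_mul_sq _ _ _).trans ?_
  rw [mul_comm]
  exact le_refl _

theorem n2_pow_le (T : Matrix ι ι ℝ) (hT : T.transpose = T) (f : ι → ℝ) (r : ℕ) :
    n2 (T.mulVec f) ^ (2 ^ r) ≤ n2 ((T ^ (2 ^ r)).mulVec f) * n2 f ^ (2 ^ r - 1) := by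
  induction r with
  | zero => simp
  | succ r ih =>
    have hTr : (T ^ 2 ^ r).transpose = T ^ 2 ^ r := by rw [Matrix.transpose_pow, hT]
    have h1 := n2_sq_le (T ^ 2 ^ r) hTr f
    rw [← pow_mul, ← pow_succ] at h1
    have hpos : 1 ≤ 2 ^ r := Nat.one_le_two_pow
    calc n2 (T.mulVec f) ^ (2 ^ (r + 1)) = (n2 (T.mulVec f) ^ (2 ^ r)) ^ 2 := by
          rw [← pow_mul, ← pow_succ]
      _ ≤ (n2 ((T ^ (2 ^ r)).mulVec f) * n2 f ^ (2 ^ r - 1)) ^ 2 :=
          pow_le_pow_left₀ (pow_nonneg (n2_nonneg _) _) ih 2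
      _ = n2 ((T ^ (2 ^ r)).mulVec f) ^ 2 * n2 f ^ (2 * (2 ^ r - 1)) := by
          rw [mul_pow, ← pow_mul, mul_comm (2 ^ r - 1) 2]
      _ ≤ (n2 ((T ^ 2 ^ (r + 1)).mulVec f) * n2 f) * n2 f ^ (2 * (2 ^ r - 1)) :=
          mul_le_mul_of_nonneg_right h1 (pow_nonneg (n2_nonneg _) _)
      _ = n2 ((T ^ 2 ^ (r + 1)).mulVec f) * n2 f ^ (2 ^ (r + 1) - 1) := by
          rw [mul_assoc, ← pow_succ']
          congr 2
          rw [pow_succ]
          omega

/-- spectral bound by the trace of a power -/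
theorem n2_le_trace (T : Matrix ι ι ℝ) (hT : T.transpose = T) (f : ι → ℝ) (r : ℕ) :
    n2 (T.mulVec f) ^ (2 ^ r) ≤ (T ^ (2 * 2 ^ r)).trace * n2 f ^ (2 ^ r) := by
  have hTr : (T ^ 2 ^ r).transpose = T ^ 2 ^ r := by rw [Matrix.transpose_pow, hT]
  have h1 : (T ^ (2 * 2 ^ r)).trace = ∑ a, ∑ b, (T ^ 2 ^ r) a b ^ 2 := by
    rw [mul_comm, pow_mul, sq, Matrix.trace]
    simp only [Matrix.diag_apply, Matrix.mul_apply]
    refine Finset.sum_congr rfl fun a _ => Finset.sum_congr rfl fun b _ => ?_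
    have h2 : (T ^ 2 ^ r) b a = (T ^ 2 ^ r) a b := congrFun (congrFun hTr a) b
    rw [h2, sq]
  rw [h1]
  refine (n2_pow_le T hT f r).trans ?_
  have hpos : 1 ≤ 2 ^ r := Nat.one_le_two_pow
  calc n2 ((T ^ (2 ^ r)).mulVec f) * n2 f ^ (2 ^ r - 1)
      ≤ ((∑ a, ∑ b, (T ^ 2 ^ r) a b ^ 2) * n2 f) * n2 f ^ (2 ^ r - 1) :=
        mul_le_mul_of_nonneg_right (n2_mulVec_le _ _) (pow_nonneg (n2_nonneg _) _)
    _ = _ := by
        rw [mul_assoc, ← pow_succ', Nat.sub_add_cancel hpos]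

end

section
variable {n : ℕ}

/-- the label of an edge of the complete bipartite graph -/
def blab : (Fin n ⊕ Fin n) → (Fin n ⊕ Fin n) → Fin n × Fin n
  | Sum.inl i, Sum.inr j => (i, j)
  | Sum.inr j, Sum.inl i => (i, j)
  | Sum.inl i, Sum.inl j => (i, j)
  | Sum.inr i, Sum.inr j => (i, j)

/-- the two ends are on different sides -/
def badj : (Fin n ⊕ Fin n) → (Fin n ⊕ Fin n) → Prop
  | Sum.inl _, Sum.inr _ => True
  | Sum.inr _, Sum.inl _ => True
  | Sum.inl _, Sum.inl _ => False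
  | Sum.inr _, Sum.inr _ => False

theorem binj (a a' b : Fin n ⊕ Fin n) (h : badj a b) (h' : badj a' b) (hl : blab a b = blab a' b) :
    a = a' := by
  rcases a with a | a <;> rcases a' with a' | a' <;> rcases b with b | b <;>
    simp_all [badj, blab]

/-- every matrix with entries in `[-1,1]` of small variance can be rounded to a sign matrix with a
small spectral error -/
theorem rounding (M : Matrix (Fin n) (Fin n) ℝ) (v : ℝ) (hM : ∀ i j, |M i j| ≤ 1)
    (hv : ∀ i j, 1 - M i j ^ 2 ≤ v) (hv0 : 0 ≤ v) (hn : 2 ≤ v * n) (r : ℕ) :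
    ∃ A : Matrix (Fin n) (Fin n) ℝ, (∀ i j, A i j = 1 ∨ A i j = -1) ∧ ∀ f : Fin n → ℝ,
      n2 ((A - M).mulVec f) ^ (2 ^ r) ≤
        ((2 ^ r + 1) * (2 * 2 ^ r).factorial * (2 * n) * (2 * (v * n)) ^ (2 ^ r)) *
          n2 f ^ (2 ^ r) := by
  classical
  set wt : Fin n × Fin n → Bool → ℝ := fun e b => if b then (1 + M e.1 e.2) / 2 else
    (1 - M e.1 e.2) / 2 with hwt
  set z : Fin n × Fin n → Bool → ℝ := fun e b => if b then 1 - M e.1 e.2 else -1 - M e.1 e.2
    with hz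
  have hM' : ∀ i j, -1 ≤ M i j ∧ M i j ≤ 1 := fun i j => abs_le.1 (hM i j)
  have hpos : ∀ e b, 0 ≤ wt e b := by
    intro e b
    have := hM' e.1 e.2
    rw [hwt]
    cases b <;> simp <;> linarith
  have h0 : ∀ e, ∑ b : Bool, wt e b = 1 := by
    intro e
    rw [Fintype.sum_bool, hwt]
    simp
    ring
  have h1 : ∀ e, ∑ b : Bool, wt e b * z e b = 0 := by
    intro e
    rw [Fintype.sum_bool, hwt, hz]
    simp
    ring
  have h2 : ∀ e, ∀ m : ℕ, 2 ≤ m → |∑ b : Bool, wt e b * z e b ^ m| ≤ 2 ^ m * (v / 4) := by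
    intro e m hm
    obtain ⟨m, rfl⟩ : ∃ m', m = m' + 2 := ⟨m - 2, by omega⟩
    have hb := hM' e.1 e.2
    have hzb : ∀ b, |z e b| ≤ 2 := by
      intro b
      rw [hz, abs_le]
      cases b <;> simp <;> constructor <;> linarith
    calc |∑ b : Bool, wt e b * z e b ^ (m + 2)| ≤ ∑ b : Bool, |wt e b * z e b ^ (m + 2)| :=
          Finset.abs_sum_le_sum_abs _ _
      _ ≤ ∑ b : Bool, 2 ^ m * (wt e b * z e b ^ 2) := by
          refine Finset.sum_le_sum fun b _ => ?_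
          rw [abs_mul, abs_of_nonneg (hpos e b), abs_pow, pow_add, sq_abs]
          have h3 : |z e b| ^ m ≤ 2 ^ m := pow_le_pow_left₀ (abs_nonneg _) (hzb b) m
          have h4 : 0 ≤ wt e b * z e b ^ 2 := mul_nonneg (hpos e b) (sq_nonneg _)
          calc wt e b * (|z e b| ^ m * z e b ^ 2) = |z e b| ^ m * (wt e b * z e b ^ 2) := by ring
            _ ≤ 2 ^ m * (wt e b * z e b ^ 2) := mul_le_mul_of_nonneg_right h3 h4
      _ = 2 ^ m * (1 - M e.1 e.2 ^ 2) := by
          rw [← Finset.mul_sum, Fintype.sum_bool, hwt, hz]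
          simp
          ring
      _ ≤ 2 ^ m * v := mul_le_mul_of_nonneg_left (hv _ _) (by positivity)
      _ = 2 ^ (m + 2) * (v / 4) := by rw [pow_add]; ring
  have hcard : (Fintype.card (Fin n ⊕ Fin n) : ℝ) = 2 * n := by
    rw [Fintype.card_sum, Fintype.card_fin]; push_cast; ring
  have htr := expect_trace (V := Fin n ⊕ Fin n) blab badj binj wt z (v / 4) (by positivity) h0 h1
    h2 (2 ^ r) (by rw [hcard]; linarith)
  obtain ⟨s, hs⟩ := exists_le_avg wt hpos h0 (fun s => (Xs blab badj z s ^ (2 * 2 ^ r)).trace) _ htr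
  obtain ⟨A, hAap⟩ : ∃ A : Matrix (Fin n) (Fin n) ℝ, ∀ i j, A i j = if s (i, j) then 1 else -1 :=
    ⟨fun i j => if s (i, j) then 1 else -1, fun _ _ => rfl⟩
  have hXs : Xs blab badj z s = Matrix.fromBlocks 0 (A - M) (A - M).transpose 0 := by
    ext a b
    unfold Xs
    rcases a with a | a <;> rcases b with b | b <;> simp [badj, blab, hz, hAap] <;>
      split_ifs <;> rfl
  refine ⟨A, fun i j => ?_, fun f => ?_⟩
  · rw [hAap]
    by_cases h : s (i, j) <;> simp [h]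
  · have hsym : (Xs blab badj z s).transpose = Xs blab badj z s := by
      rw [hXs, Matrix.fromBlocks_transpose]; simp
    have h3 := n2_le_trace _ hsym (Sum.elim 0 f) r
    have h4 : n2 ((Xs blab badj z s).mulVec (Sum.elim 0 f)) = n2 ((A - M).mulVec f) := by
      rw [hXs, Matrix.fromBlocks_mulVec]
      unfold n2
      rw [Fintype.sum_sum_type]
      simp
    have h5 : n2 (Sum.elim (0 : Fin n → ℝ) f) = n2 f := by
      unfold n2
      rw [Fintype.sum_sum_type]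
      simp
    rw [h4, h5] at h3
    refine h3.trans (mul_le_mul_of_nonneg_right ?_ (pow_nonneg (n2_nonneg _) _))
    refine hs.trans (le_of_eq ?_)
    rw [hcard]
    push_cast
    ring

end

end Pool.Agent.TH432.NI
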