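import Mathlib
import Pool.Agent.TH432.NI.Round

set_option autoImplicit false

/-! A minor of a Hadamard matrix plus a matrix with tiny entries is almost an isometry. -/

open Finset

namespace Pool.Agent.TH432.NI

theorem n2_add {ι : Type} [Fintype ι] (u w : ι → ℝ) :
    n2 (u + w) = n2 u + 2 * (∑ i, u i * w i) + n2 w := by
  unfold n2
  rw [Finset.mul_sum, ← Finset.sum_add_distrib, ← Finset.sum_add_distrib]
  refine Finset.sum_congr rfl fun i _ => ?_
  simp only [Pi.add_apply]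
  ring

theorem n2_smul {ι : Type} [Fintype ι] (c : ℝ) (u : ι → ℝ) : n2 (c • u) = c ^ 2 * n2 u := by
  unfold n2
  rw [Finset.mul_sum]
  refine Finset.sum_congr rfl fun i _ => ?_
  simp only [Pi.smul_apply, smul_eq_mul]
  ring

theorem abs_dot_le {ι : Type} [Fintype ι] (u w : ι → ℝ) (c : ℝ) (hc : 0 ≤ c)
    (h : n2 w ≤ c ^ 2 * n2 u) : |∑ i, u i * w i| ≤ c * n2 u := by
  apply abs_le_of_sq_le_sq _ (mul_nonneg hc (n2_nonneg u))
  refine (Finset.sum_mul_sq_le_sq_mul_sq _ _ _).trans ?_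
  change n2 u * n2 w ≤ _
  calc n2 u * n2 w ≤ n2 u * (c ^ 2 * n2 u) := mul_le_mul_of_nonneg_left h (n2_nonneg u)
    _ = _ := by ring

theorem isom {ι : Type} [Fintype ι] [DecidableEq ι] (H : Matrix ι ι ℝ) (N : ℝ)
    (hH : H.transpose * H = N • (1 : Matrix ι ι ℝ)) (g : ι → ℝ) : n2 (H.mulVec g) = N * n2 g := by
  rw [n2_eq_dot, n2_eq_dot, Matrix.dotProduct_mulVec, ← Matrix.mulVec_transpose,
    Matrix.mulVec_mulVec, hH, Matrix.smul_mulVec, Matrix.one_mulVec, smul_dotProduct, smul_eq_mul]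

theorem minor (n d : ℕ) (H : Matrix (Fin n ⊕ Fin d) (Fin n ⊕ Fin d) ℝ)
    (hs : ∀ i j, H i j = 1 ∨ H i j = -1)
    (hH : H.transpose * H = ((n + d : ℕ) : ℝ) • (1 : Matrix (Fin n ⊕ Fin d) (Fin n ⊕ Fin d) ℝ))
    (hn : 0 < n) (η : ℝ) (hη : η = d / Real.sqrt (n + d : ℕ)) :
    ∃ M : Matrix (Fin n) (Fin n) ℝ, (∀ i j, 1 - η ≤ |M i j| ∧ |M i j| ≤ 1 + η) ∧
      ∀ f : Fin n → ℝ, |n2 (M.mulVec f) - ((n + d : ℕ) : ℝ) * n2 f| ≤
        (2 * η + η ^ 2) * (((n + d : ℕ) : ℝ) * n2 f) := by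
  set N : ℝ := ((n + d : ℕ) : ℝ) with hN
  have hN0 : 0 < N := by rw [hN]; exact_mod_cast (by omega : 0 < n + d)
  set κ : ℝ := (Real.sqrt N)⁻¹ with hκ
  have hsq : 0 < Real.sqrt N := Real.sqrt_pos.2 hN0
  have hκ0 : 0 < κ := inv_pos.2 hsq
  have hκN : κ ^ 2 * N = 1 := by
    rw [hκ, inv_pow, Real.sq_sqrt hN0.le, inv_mul_cancel₀ hN0.ne']
  have hηκ : η = κ * d := by rw [hη, hκ, div_eq_mul_inv, mul_comm]
  have hη0 : 0 ≤ η := by rw [hηκ]; positivity
  set A := H.toBlocks₁₁ with hA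
  set C := H.toBlocks₁₂ with hC
  set D := H.toBlocks₂₁ with hD
  set B := H.toBlocks₂₂ with hB
  have hblk : H = Matrix.fromBlocks A C D B := (Matrix.fromBlocks_toBlocks H).symm
  have hentry : ∀ i j, |H i j| = 1 := by
    intro i j
    rcases hs i j with h | h <;> rw [h] <;> simp
  refine ⟨A + κ • (C * D), fun i j => ?_, fun f => ?_⟩
  · have h1 : |(κ • (C * D)) i j| ≤ η := by
      rw [Matrix.smul_apply, smul_eq_mul, Matrix.mul_apply, abs_mul, abs_of_pos hκ0, hηκ]
      apply mul_le_mul_of_nonneg_left _ hκ0.le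
      refine (Finset.abs_sum_le_sum_abs _ _).trans ?_
      have h2 : ∀ k ∈ (Finset.univ : Finset (Fin d)), |C i k * D k j| ≤ 1 := by
        intro k _
        rw [abs_mul]
        have h3 : |C i k| = 1 := hentry (Sum.inl i) (Sum.inr k)
        have h4 : |D k j| = 1 := hentry (Sum.inr k) (Sum.inl j)
        rw [h3, h4]; norm_num
      refine (Finset.sum_le_sum h2).trans ?_
      simp
    have h5 : |A i j| = 1 := hentry (Sum.inl i) (Sum.inl j)
    rw [Matrix.add_apply]
    constructor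
    · have h6 : |A i j| ≤ |A i j + (κ • (C * D)) i j| + |(κ • (C * D)) i j| := by
        calc |A i j| = |(A i j + (κ • (C * D)) i j) - (κ • (C * D)) i j| := by
              rw [add_sub_cancel_right]
          _ ≤ _ := abs_sub _ _
      linarith
    · have h6 := abs_add_le (A i j) ((κ • (C * D)) i j)
      linarith
  · set y : Fin d → ℝ := D.mulVec f with hy
    have hMf : (A + κ • (C * D)).mulVec f = A.mulVec f + κ • C.mulVec y := by
      rw [Matrix.add_mulVec, Matrix.smul_mulVec, ← Matrix.mulVec_mulVec]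
    have h1 := isom H N hH (Sum.elim f (κ • y))
    rw [hblk, Matrix.fromBlocks_mulVec] at h1
    simp only [Sum.elim_comp_inl, Sum.elim_comp_inr] at h1
    have hsplit : ∀ (u : Fin n → ℝ) (w : Fin d → ℝ), n2 (Sum.elim u w) = n2 u + n2 w := by
      intro u w
      unfold n2
      rw [Fintype.sum_sum_type]
      simp
    rw [hsplit, hsplit, n2_smul, Matrix.mulVec_smul, Matrix.mulVec_smul, ← hMf, ← hy] at h1
    have h2 := isom H N hH (Sum.elim f 0)
    rw [hblk, Matrix.fromBlocks_mulVec] at h2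
    simp only [Sum.elim_comp_inl, Sum.elim_comp_inr] at h2
    rw [hsplit, hsplit, Matrix.mulVec_zero, Matrix.mulVec_zero, add_zero, add_zero, ← hy] at h2
    have h3 : n2 y ≤ N * n2 f := by
      have h4 : n2 (0 : Fin d → ℝ) = 0 := by unfold n2; simp
      rw [h4] at h2
      have := n2_nonneg (A.mulVec f)
      linarith
    have h5 : n2 (B.mulVec y) ≤ (d : ℝ) ^ 2 * n2 y := by
      refine (n2_mulVec_le B y).trans (mul_le_mul_of_nonneg_right ?_ (n2_nonneg y))
      have h6 : ∀ a b, B a b ^ 2 = 1 := by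
        intro a b
        have := hentry (Sum.inr a) (Sum.inr b)
        rw [← sq_abs]
        change |H (Sum.inr a) (Sum.inr b)| ^ 2 = 1
        rw [this]; norm_num
      simp only [h6]
      simp
      apply le_of_eq; ring
    have h7 := abs_dot_le y (B.mulVec y) d (Nat.cast_nonneg d) h5
    have h8 : n2 (y + κ • B.mulVec y) = n2 y + 2 * κ * (∑ i, y i * (B.mulVec y) i) +
        κ ^ 2 * n2 (B.mulVec y) := by
      have h80 : ∑ i, y i * (κ • B.mulVec y) i = κ * (∑ i, y i * (B.mulVec y) i) := by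
        rw [Finset.mul_sum]
        refine Finset.sum_congr rfl fun i _ => ?_
        simp only [Pi.smul_apply, smul_eq_mul]
        ring
      rw [n2_add, n2_smul, h80]
      ring
    rw [h8] at h1
    set S : ℝ := ∑ i, y i * (B.mulVec y) i with hS
    have h9 : n2 ((A + κ • (C * D)).mulVec f) - N * n2 f =
        -(2 * κ * S) - κ ^ 2 * n2 (B.mulVec y) := by
      have h10 : N * (κ ^ 2 * n2 y) = n2 y := by
        calc N * (κ ^ 2 * n2 y) = (κ ^ 2 * N) * n2 y := by ring
          _ = n2 y := by rw [hκN, one_mul]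
      rw [mul_add, h10] at h1
      linarith
    rw [h9]
    have h11 : |2 * κ * S| ≤ 2 * η * n2 y := by
      rw [abs_mul, abs_of_pos (by positivity : 0 < 2 * κ), hηκ]
      calc 2 * κ * |S| ≤ 2 * κ * (d * n2 y) := mul_le_mul_of_nonneg_left h7 (by positivity)
        _ = _ := by ring
    have h12 : κ ^ 2 * n2 (B.mulVec y) ≤ η ^ 2 * n2 y := by
      rw [hηκ]
      calc κ ^ 2 * n2 (B.mulVec y) ≤ κ ^ 2 * ((d : ℝ) ^ 2 * n2 y) :=
            mul_le_mul_of_nonneg_left h5 (by positivity)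
        _ = _ := by ring
    have h13 : 0 ≤ κ ^ 2 * n2 (B.mulVec y) := mul_nonneg (by positivity) (n2_nonneg _)
    have h14 : (2 * η + η ^ 2) * n2 y ≤ (2 * η + η ^ 2) * (N * n2 f) :=
      mul_le_mul_of_nonneg_left h3 (by positivity)
    rw [abs_le] at h11 ⊢
    constructor <;> nlinarith
end Pool.Agent.TH432.NI
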