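import Mathlib
import Pool.Agent.TH432.Had.Half
import Pool.Agent.TH432.NI.Minor

set_option autoImplicit false

/-! Sign matrices of every order which are almost isometries. -/

open Finset

namespace Pool.Agent.TH432.NI

open Pool.Agent.W851.Had (tow tow_zero tow_succ tow_pos main_had)
open Pool.Agent.H108R3.Had (HasHad)

theorem real_had {n d : ℕ} (h : HasHad (n + d)) :
    ∃ H : Matrix (Fin n ⊕ Fin d) (Fin n ⊕ Fin d) ℝ, (∀ i j, H i j = 1 ∨ H i j = -1) ∧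
      H.transpose * H =
        ((n + d : ℕ) : ℝ) • (1 : Matrix (Fin n ⊕ Fin d) (Fin n ⊕ Fin d) ℝ) := by
  obtain ⟨H, h1, h2⟩ := h
  let e : Fin n ⊕ Fin d ≃ Fin (n + d) := finSumFinEquiv
  refine ⟨Matrix.of fun a b => ((H (e b) (e a) : ℤ) : ℝ), fun i j => ?_, ?_⟩
  · rw [Matrix.of_apply]
    rcases h1 (e j) (e i) with h | h <;> rw [h] <;> simp
  · ext a b
    rw [Matrix.mul_apply]
    simp only [Matrix.transpose_apply, Matrix.of_apply, Matrix.smul_apply, smul_eq_mul]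
    rw [Equiv.sum_comp e (fun c => ((H (e a) c : ℤ) : ℝ) * ((H (e b) c : ℤ) : ℝ))]
    have h3 := congrFun (congrFun h2 (e a)) (e b)
    rw [Matrix.mul_apply] at h3
    simp only [Matrix.transpose_apply, Matrix.smul_apply] at h3
    have h4 : ∑ c, ((H (e a) c : ℤ) : ℝ) * ((H (e b) c : ℤ) : ℝ) =
        ((∑ c, H (e a) c * H (e b) c : ℤ) : ℝ) := by push_cast; rfl
    rw [h4, h3]
    by_cases hab : a = b
    · subst hab; simp
    · have : e a ≠ e b := fun h => hab (e.injective h)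
      simp [hab, this]

theorem level : ∃ n₀ : ℕ, ∀ n : ℕ, n₀ ≤ n → ∃ d : ℕ, (d : ℝ) ≤ Real.log n ∧ HasHad (n + d) := by
  obtain ⟨C, hC, h⟩ := main_had
  obtain ⟨n₀, hn₀⟩ := Pool.Agent.TH432.Had.exists_level C
  refine ⟨n₀ + 4, fun n hn => ?_⟩
  obtain ⟨L, hL, hlog⟩ := hn₀ n (by omega)
  set P : ℕ := 2 ^ (C ^ (L + 1)) with hP
  have hP0 : 0 < P := Nat.two_pow_pos _
  set q : ℕ := (n + P - 1) / P with hq
  have hq1 : n ≤ P * q := by
    have h1 := Nat.div_add_mod (n + P - 1) P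
    have h2 := Nat.mod_lt (n + P - 1) hP0
    rw [← hq] at h1
    omega
  have hq2 : P * q < n + P := by
    have h1 := Nat.div_add_mod (n + P - 1) P
    rw [← hq] at h1
    omega
  have hq3 : q ≤ n := by
    by_contra hcon
    have h1 : P * (n + 1) ≤ P * q := Nat.mul_le_mul_left _ (by omega)
    have h2 : P * (n + 1) = P * n + P := by ring
    have h3 : 1 * n ≤ P * n := Nat.mul_le_mul_right _ hP0
    omega
  refine ⟨P * q - n, ?_, ?_⟩
  · have h1 : P * q - n ≤ P := by omega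
    have h2 : ((P * q - n : ℕ) : ℝ) ≤ (P : ℝ) := by exact_mod_cast h1
    have h3 : (P : ℝ) = 2 ^ (C ^ (L + 1)) := by rw [hP]; push_cast; rfl
    have h4 : Real.log ((n : ℝ) / 4) ≤ Real.log n := by
      have h5 : (0 : ℝ) < n := by
        have : 0 < n := by omega
        exact_mod_cast this
      apply Real.log_le_log (by positivity)
      linarith
    linarith
  · have h1 := h L q (C ^ (L + 1)) (hq3.trans hL) le_rfl
    rw [← hP] at h1
    have h2 : n + (P * q - n) = P * q := by omega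
    rw [h2]
    exact h1

theorem pow_two_near (x : ℝ) (hx : 1 ≤ x) : ∃ r : ℕ, x ≤ 2 ^ r ∧ (2 : ℝ) ^ r ≤ 2 * x := by
  obtain ⟨r, h1, h2⟩ := exists_nat_pow_near hx (by norm_num : (1 : ℝ) < 2)
  refine ⟨r + 1, h2.le, ?_⟩
  rw [pow_succ]
  linarith

theorem const_bound (n k : ℕ) (hn : 1 ≤ n) (hk : Real.log n ≤ k) (hk1 : 1 ≤ k) (v : ℝ)
    (hv : 0 ≤ v) :
    ((k : ℝ) + 1) * (2 * k).factorial * (2 * n) * (2 * (v * n)) ^ k ≤
      (96 * k ^ 2 * (v * n)) ^ k := by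
  have h1 : (k : ℝ) + 1 ≤ 2 ^ k := by
    have : k + 1 ≤ 2 ^ k := Nat.lt_two_pow_self
    exact_mod_cast this
  have h2 : ((2 * k).factorial : ℝ) ≤ (4 * (k : ℝ) ^ 2) ^ k := by
    have h3 : (2 * k).factorial ≤ (2 * k) ^ (2 * k) := Nat.factorial_le_pow _
    have h4 : (((2 * k).factorial : ℕ) : ℝ) ≤ ((2 * k) ^ (2 * k) : ℕ) := by exact_mod_cast h3
    refine h4.trans (le_of_eq ?_)
    push_cast
    rw [pow_mul]
    congr 1
    ring
  have h5 : (2 : ℝ) * n ≤ 6 ^ k := by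
    have hn0 : (0 : ℝ) < n := by exact_mod_cast hn
    have h6 : (n : ℝ) ≤ Real.exp k := by
      rw [← Real.exp_log hn0]; exact Real.exp_le_exp.2 hk
    have h7 : Real.exp k ≤ 3 ^ k := by
      rw [← Real.exp_one_pow]
      exact pow_le_pow_left₀ (Real.exp_pos 1).le (by have := Real.exp_one_lt_d9; linarith) k
    have h8 : (2 : ℝ) ≤ 2 ^ k := by
      calc (2 : ℝ) = 2 ^ 1 := by norm_num
        _ ≤ 2 ^ k := pow_le_pow_right₀ (by norm_num) hk1
    calc (2 : ℝ) * n ≤ 2 ^ k * 3 ^ k := by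
          apply mul_le_mul h8 (h6.trans h7) hn0.le (by positivity)
      _ = 6 ^ k := by rw [← mul_pow]; norm_num
  have hvn : 0 ≤ 2 * (v * n) := by positivity
  calc ((k : ℝ) + 1) * (2 * k).factorial * (2 * n) * (2 * (v * n)) ^ k
      ≤ 2 ^ k * (4 * (k : ℝ) ^ 2) ^ k * 6 ^ k * (2 * (v * n)) ^ k := by
        apply mul_le_mul_of_nonneg_right _ (by positivity)
        apply mul_le_mul _ h5 (by positivity) (by positivity)
        apply mul_le_mul h1 h2 (by positivity) (by positivity)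
    _ = _ := by
        rw [← mul_pow, ← mul_pow, ← mul_pow]
        congr 1
        ring

theorem norm_sq_eq {n : ℕ} (x : EuclideanSpace ℝ (Fin n)) : ‖x‖ ^ 2 = n2 (fun i => x i) := by
  rw [EuclideanSpace.norm_sq_eq]
  unfold n2
  refine Finset.sum_congr rfl fun i _ => ?_
  rw [Real.norm_eq_abs, sq_abs]

theorem norm_toE {n : ℕ} (A : Matrix (Fin n) (Fin n) ℝ) (x : EuclideanSpace ℝ (Fin n)) :
    ‖Matrix.toEuclideanLin A x‖ ^ 2 = n2 (A.mulVec (fun i => x i)) := by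
  rw [norm_sq_eq]
  rfl

/-- a near isometry from a Hadamard matrix of slightly larger order -/
theorem large (n d : ℕ) (hd : (d : ℝ) ≤ Real.log n) (hH : HasHad (n + d))
    (hL : 1 ≤ Real.log n) (hn : 16 * (Real.log n) ^ 2 ≤ n) :
    ∃ A : Matrix (Fin n) (Fin n) ℝ, (∀ i j, A i j = 1 ∨ A i j = -1) ∧
      ∀ x : EuclideanSpace ℝ (Fin n),
        (1 - 44 * (Real.log n * Real.sqrt (Real.log n)) / Real.sqrt (Real.sqrt n)) *
          (Real.sqrt n * ‖x‖) ≤ ‖Matrix.toEuclideanLin A x‖ ∧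
        ‖Matrix.toEuclideanLin A x‖ ≤
          (1 + 44 * (Real.log n * Real.sqrt (Real.log n)) / Real.sqrt (Real.sqrt n)) *
          (Real.sqrt n * ‖x‖) := by
  set L : ℝ := Real.log n with hLdef
  have hn16 : (16 : ℝ) ≤ n := by nlinarith
  have hn0 : 0 < n := by
    have : (0 : ℝ) < n := by linarith
    exact_mod_cast this
  have hnR : (0 : ℝ) < n := by exact_mod_cast hn0
  obtain ⟨H, hs, hHH⟩ := real_had hH
  set s : ℝ := Real.sqrt (Real.sqrt n) with hsdef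
  have hs2 : s ^ 2 = Real.sqrt n := Real.sq_sqrt (Real.sqrt_nonneg _)
  have hsn : Real.sqrt n ^ 2 = n := Real.sq_sqrt hnR.le
  have hsq0 : 0 < Real.sqrt n := Real.sqrt_pos.2 hnR
  have hs0 : 0 < s := Real.sqrt_pos.2 hsq0
  have hsq1 : 1 ≤ Real.sqrt n := by
    rw [Real.one_le_sqrt]; linarith
  have hs1 : 1 ≤ s := by
    rw [hsdef, Real.one_le_sqrt]; exact hsq1
  have hLs : 4 * L ≤ Real.sqrt n := by
    apply Real.le_sqrt_of_sq_le
    nlinarith
  -- the small parameter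
  set η : ℝ := d / Real.sqrt (n + d : ℕ) with hη
  have hη0 : 0 ≤ η := by positivity
  have hηle : η ≤ L / Real.sqrt n := by
    rw [hη]
    apply div_le_div₀ (by linarith) hd hsq0
    apply Real.sqrt_le_sqrt
    push_cast
    linarith [(Nat.cast_nonneg d : (0 : ℝ) ≤ d)]
  have hη1 : 4 * η ≤ 1 := by
    have h1 : 4 * (L / Real.sqrt n) ≤ 1 := by
      rw [← mul_div_assoc, div_le_one hsq0]; exact hLs
    linarith
  obtain ⟨M, hM1, hM2⟩ := minor n d H hs hHH hn0 η hη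
  set Mb : Matrix (Fin n) (Fin n) ℝ := (1 + η)⁻¹ • M with hMb
  have hη' : 0 < 1 + η := by linarith
  have hMbabs : ∀ i j, |Mb i j| = (1 + η)⁻¹ * |M i j| := by
    intro i j
    rw [hMb, Matrix.smul_apply, smul_eq_mul, abs_mul, abs_of_pos (inv_pos.2 hη')]
  set v : ℝ := 4 * L / Real.sqrt n with hv
  have hv0 : 0 ≤ v := by rw [hv]; positivity
  have h4η : 4 * η ≤ v := by
    rw [hv, mul_div_assoc]; linarith
  have hb1 : ∀ i j, |Mb i j| ≤ 1 := by
    intro i j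
    rw [hMbabs, inv_mul_le_iff₀ hη', mul_one]
    exact (hM1 i j).2
  have hb2 : ∀ i j, 1 - Mb i j ^ 2 ≤ v := by
    intro i j
    have h1 : (1 + η)⁻¹ * (1 - η) ≤ |Mb i j| := by
      rw [hMbabs]
      exact mul_le_mul_of_nonneg_left (hM1 i j).1 (inv_pos.2 hη').le
    have h2 : 1 - 2 * η ≤ (1 + η)⁻¹ * (1 - η) := by
      rw [le_inv_mul_iff₀ hη']
      nlinarith
    have h3 : (1 - 2 * η) ^ 2 ≤ Mb i j ^ 2 := by
      rw [← sq_abs (Mb i j)]
      exact pow_le_pow_left₀ (by linarith) (h2.trans h1) 2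
    nlinarith
  have hvn : v * n = 4 * L * Real.sqrt n := by
    rw [hv, div_mul_eq_mul_div, div_eq_iff hsq0.ne']
    calc 4 * L * n = 4 * L * (Real.sqrt n ^ 2) := by rw [hsn]
      _ = _ := by ring
  have h2vn : 2 ≤ v * n := by
    rw [hvn]; nlinarith
  obtain ⟨r, hr1, hr2⟩ := pow_two_near L hL
  obtain ⟨A, hA1, hA2⟩ := rounding Mb v hb1 hb2 hv0 h2vn r
  refine ⟨A, hA1, fun x => ?_⟩
  set f : Fin n → ℝ := fun i => x i with hf
  have hx2 : ‖x‖ ^ 2 = n2 f := norm_sq_eq x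
  -- the error term
  have herr : n2 ((A - Mb).mulVec f) ≤ 1600 * (L ^ 3 * Real.sqrt n) * n2 f := by
    have hk1 : 1 ≤ 2 ^ r := Nat.one_le_two_pow
    have h1 := const_bound n (2 ^ r) hn0 (by push_cast; exact hr1) hk1 v hv0
    have h2 := hA2 f
    push_cast at h1
    have h3 : n2 ((A - Mb).mulVec f) ^ (2 ^ r) ≤
        (96 * (2 ^ r) ^ 2 * (v * n) * n2 f) ^ (2 ^ r) := by
      rw [mul_pow (96 * (2 ^ r) ^ 2 * (v * n))]
      exact h2.trans (mul_le_mul_of_nonneg_right h1 (pow_nonneg (n2_nonneg _) _))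
    have h4 : n2 ((A - Mb).mulVec f) ≤ 96 * (2 ^ r) ^ 2 * (v * n) * n2 f :=
      le_of_pow_le_pow_left₀ (by positivity)
        (mul_nonneg (mul_nonneg (by positivity) (by linarith)) (n2_nonneg _)) h3
    refine h4.trans (mul_le_mul_of_nonneg_right ?_ (n2_nonneg _))
    rw [hvn]
    have h5 : ((2 : ℝ) ^ r) ^ 2 ≤ (2 * L) ^ 2 := pow_le_pow_left₀ (by positivity) hr2 2
    have h6 : 0 ≤ L * Real.sqrt n := by positivity
    calc 96 * ((2 : ℝ) ^ r) ^ 2 * (4 * L * Real.sqrt n)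
        = 384 * ((2 : ℝ) ^ r) ^ 2 * (L * Real.sqrt n) := by ring
      _ ≤ 384 * (2 * L) ^ 2 * (L * Real.sqrt n) := by
          apply mul_le_mul_of_nonneg_right _ h6
          linarith
      _ = 1536 * (L ^ 3 * Real.sqrt n) := by ring
      _ ≤ 1600 * (L ^ 3 * Real.sqrt n) := by
          apply mul_le_mul_of_nonneg_right (by norm_num) (by positivity)
  -- the main term
  have hN : ((n + d : ℕ) : ℝ) = n + d := by push_cast; ring
  have hMbf : n2 (Mb.mulVec f) = ((1 + η) ^ 2)⁻¹ * n2 (M.mulVec f) := by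
    rw [hMb, Matrix.smul_mulVec, n2_smul, inv_pow]
  have hmain := abs_le.1 (hM2 f)
  have hnf := n2_nonneg f
  have hLn : (d : ℝ) ≤ 4 * L / Real.sqrt n * n := by
    have h1 : 4 * L / Real.sqrt n * n = 4 * L * Real.sqrt n := hvn
    rw [h1]
    have h2 : 4 * L * 1 ≤ 4 * L * Real.sqrt n := mul_le_mul_of_nonneg_left hsq1 (by linarith)
    linarith
  set ε : ℝ := 4 * L / Real.sqrt n with hε
  have hε0 : 0 ≤ ε := hv0
  have hε1 : ε ≤ 1 := by rw [hε, div_le_one hsq0]; exact hLs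
  have hup : n2 (Mb.mulVec f) ≤ (1 + ε) * (n * n2 f) := by
    rw [hMbf, inv_mul_le_iff₀ (by positivity)]
    have h1 : n2 (M.mulVec f) ≤ (1 + η) ^ 2 * (((n + d : ℕ) : ℝ) * n2 f) := by
      have h2 := hmain.2
      have h3 : (1 + η) ^ 2 * (((n + d : ℕ) : ℝ) * n2 f) = ((n + d : ℕ) : ℝ) * n2 f +
          (2 * η + η ^ 2) * (((n + d : ℕ) : ℝ) * n2 f) := by ring
      linarith
    refine h1.trans (mul_le_mul_of_nonneg_left ?_ (by positivity))
    rw [hN, ← mul_assoc]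
    apply mul_le_mul_of_nonneg_right _ hnf
    linarith
  have hlow : (1 - ε) * (n * n2 f) ≤ n2 (Mb.mulVec f) := by
    rw [hMbf, le_inv_mul_iff₀ (by positivity)]
    have h1 : (1 - 2 * η - η ^ 2) * (((n + d : ℕ) : ℝ) * n2 f) ≤ n2 (M.mulVec f) := by
      have h2 := hmain.1
      have h3 : (1 - 2 * η - η ^ 2) * (((n + d : ℕ) : ℝ) * n2 f) = ((n + d : ℕ) : ℝ) * n2 f -
          (2 * η + η ^ 2) * (((n + d : ℕ) : ℝ) * n2 f) := by ring
      linarith
    refine le_trans ?_ h1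
    have h2 : (1 + η) ^ 2 * (1 - ε) ≤ 1 - 2 * η - η ^ 2 := by
      have h3 : (1 + η) ^ 2 * (1 - ε) ≤ (1 + η) ^ 2 * (1 - 4 * η) :=
        mul_le_mul_of_nonneg_left (by linarith) (by positivity)
      have h6 : (1 + η) ^ 2 * (1 - 4 * η) = 1 - 2 * η - 7 * η ^ 2 - 4 * η ^ 3 := by ring
      have h7 : 0 ≤ η ^ 2 := sq_nonneg _
      have h8 : 0 ≤ η ^ 3 := pow_nonneg hη0 3
      linarith
    have h4 : 0 ≤ 1 - 2 * η - η ^ 2 := by
      have h6 : η * η ≤ 1 * η := mul_le_mul_of_nonneg_right (by linarith) hη0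
      have h7 : η ^ 2 = η * η := sq η
      linarith
    have h5 : (n : ℝ) * n2 f ≤ ((n + d : ℕ) : ℝ) * n2 f := by
      rw [hN]
      apply mul_le_mul_of_nonneg_right _ hnf
      linarith [(Nat.cast_nonneg d : (0 : ℝ) ≤ d)]
    calc (1 + η) ^ 2 * ((1 - ε) * (n * n2 f)) = ((1 + η) ^ 2 * (1 - ε)) * (n * n2 f) := by ring
      _ ≤ (1 - 2 * η - η ^ 2) * (n * n2 f) :=
          mul_le_mul_of_nonneg_right h2 (by positivity)
      _ ≤ _ := mul_le_mul_of_nonneg_left h5 h4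
  -- norms
  set a : ℝ := ‖Matrix.toEuclideanLin A x‖ with ha
  set b : ℝ := ‖Matrix.toEuclideanLin Mb x‖ with hb
  set c : ℝ := ‖Matrix.toEuclideanLin (A - Mb) x‖ with hc
  have hc2 : c ^ 2 = n2 ((A - Mb).mulVec f) := norm_toE _ _
  have hb2' : b ^ 2 = n2 (Mb.mulVec f) := norm_toE _ _
  have hsub : Matrix.toEuclideanLin (A - Mb) x =
      Matrix.toEuclideanLin A x - Matrix.toEuclideanLin Mb x := by
    rw [map_sub, LinearMap.sub_apply]
  have hac : |a - b| ≤ c := by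
    rw [ha, hb, hc, hsub]
    exact abs_norm_sub_norm_le _ _
  have hxn : 0 ≤ ‖x‖ := norm_nonneg x
  have hcb : c ≤ 40 * (L * Real.sqrt L) * s * ‖x‖ := by
    apply le_of_sq_le_sq _ (by positivity)
    rw [hc2]
    refine herr.trans (le_of_eq ?_)
    rw [← hx2, ← hs2]
    have h1 : Real.sqrt L ^ 2 = L := Real.sq_sqrt (by linarith)
    calc 1600 * (L ^ 3 * s ^ 2) * ‖x‖ ^ 2 = 1600 * (L ^ 2 * L * s ^ 2) * ‖x‖ ^ 2 := by ring
      _ = 1600 * (L ^ 2 * Real.sqrt L ^ 2 * s ^ 2) * ‖x‖ ^ 2 := by rw [h1]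
      _ = _ := by ring
  have hbu : b ≤ (1 + ε) * (Real.sqrt n * ‖x‖) := by
    apply le_of_sq_le_sq _ (by positivity)
    rw [hb2', mul_pow, mul_pow, hsn, hx2]
    refine hup.trans (mul_le_mul_of_nonneg_right ?_ (by positivity))
    have h1 : (1 + ε) ^ 2 = 1 + 2 * ε + ε ^ 2 := by ring
    have h2 : 0 ≤ ε ^ 2 := sq_nonneg _
    linarith
  have hbl : (1 - ε) * (Real.sqrt n * ‖x‖) ≤ b := by
    apply le_of_sq_le_sq _ (norm_nonneg _)
    rw [hb2', mul_pow, mul_pow, hsn, hx2]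
    refine le_trans (mul_le_mul_of_nonneg_right ?_ (by positivity)) hlow
    have h1 : (1 - ε) ^ 2 = 1 - ε - ε * (1 - ε) := by ring
    have h2 : 0 ≤ ε * (1 - ε) := mul_nonneg hε0 (by linarith)
    linarith
  have hεs : ε * Real.sqrt n ≤ 4 * (L * Real.sqrt L) * s := by
    have h1 : ε * Real.sqrt n = 4 * L := by
      rw [hε]; field_simp
    rw [h1]
    have h2 : 1 ≤ Real.sqrt L := by rw [Real.one_le_sqrt]; exact hL
    have h3 : L * 1 ≤ L * Real.sqrt L := mul_le_mul_of_nonneg_left h2 (by linarith)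
    have h4 : 0 ≤ 4 * (L * Real.sqrt L) := by positivity
    have h5 : 4 * (L * Real.sqrt L) * 1 ≤ 4 * (L * Real.sqrt L) * s :=
      mul_le_mul_of_nonneg_left hs1 h4
    linarith
  have hquot : 44 * (L * Real.sqrt L) / s * Real.sqrt n = 44 * (L * Real.sqrt L) * s := by
    rw [← hs2]; field_simp
  have habs := abs_le.1 hac
  have h1 : ε * (Real.sqrt n * ‖x‖) ≤ 4 * (L * Real.sqrt L) * s * ‖x‖ := by
    rw [← mul_assoc]; exact mul_le_mul_of_nonneg_right hεs hxn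
  have h2 : 44 * (L * Real.sqrt L) / s * (Real.sqrt n * ‖x‖) =
      44 * (L * Real.sqrt L) * s * ‖x‖ := by
    rw [← mul_assoc, hquot]
  constructor
  · rw [sub_mul, one_mul, h2]
    linarith [habs.1]
  · rw [add_mul, one_mul, h2]
    linarith [habs.2]

theorem toE_le {n : ℕ} (A : Matrix (Fin n) (Fin n) ℝ) (hA : ∀ i j, A i j = 1 ∨ A i j = -1)
    (x : EuclideanSpace ℝ (Fin n)) : ‖Matrix.toEuclideanLin A x‖ ≤ n * ‖x‖ := by
  apply le_of_sq_le_sq _ (by positivity)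
  rw [norm_toE, mul_pow, norm_sq_eq]
  refine (n2_mulVec_le A _).trans (le_of_eq ?_)
  have h : ∀ i j, A i j ^ 2 = 1 := by
    intro i j
    rcases hA i j with h | h <;> rw [h] <;> norm_num
  simp only [h]
  simp
  left
  ring

theorem mulVec_sum {n : ℕ} (A : Matrix (Fin n) (Fin n) ℝ) (x : Fin n → ℝ) :
    n2 (A.mulVec x) = ∑ i, (∑ j, A i j * x j) ^ 2 := rfl

/-- near isometries of every order -/
theorem all : ∃ C : ℝ, ∀ n : ℕ, 2 ≤ n → ∃ A : Matrix (Fin n) (Fin n) ℝ,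
    (∀ i j, A i j = 1 ∨ A i j = -1) ∧ ∀ x : Fin n → ℝ,
      |∑ i, (∑ j, A i j * x j) ^ 2 - n * ∑ j, x j ^ 2| ≤
        C * Real.log n ^ (3 / 2 : ℝ) * (n : ℝ) ^ (3 / 4 : ℝ) * ∑ j, x j ^ 2 := by
  obtain ⟨n₀, hn₀⟩ := level
  have hev : ∀ᶠ x : ℝ in Filter.atTop, 16 * Real.log x ^ 2 ≤ x := by
    have h := (Real.isLittleO_pow_log_id_atTop (n := 2)).bound (by norm_num : (0 : ℝ) < 1 / 16)
    filter_upwards [h, Filter.eventually_gt_atTop 0] with x hx hx0
    simp only [id, Real.norm_eq_abs, abs_of_pos hx0, abs_pow, sq_abs] at hx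
    linarith
  have hev6 : ∀ᶠ x : ℝ in Filter.atTop, 44 ^ 4 * Real.log x ^ 6 ≤ x := by
    have h := (Real.isLittleO_pow_log_id_atTop (n := 6)).bound
      (by norm_num : (0 : ℝ) < 1 / 44 ^ 4)
    filter_upwards [h, Filter.eventually_gt_atTop 0] with x hx hx0
    simp only [id, Real.norm_eq_abs, abs_of_pos hx0, abs_pow] at hx
    rw [show (6 : ℕ) = 2 * 3 by norm_num, pow_mul, sq_abs, ← pow_mul] at hx
    rw [show (2 * 3 : ℕ) = 6 by norm_num] at hx
    linarith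
  have hev2 := tendsto_natCast_atTop_atTop.eventually (hev.and hev6)
  obtain ⟨n₁, hn₁⟩ := Filter.eventually_atTop.1 hev2
  set K : ℕ := max (max n₀ n₁) 3 with hK
  refine ⟨max 132 (4 * K ^ 2), fun n hn => ?_⟩
  set C : ℝ := max 132 (4 * K ^ 2) with hC
  have hnR : (2 : ℝ) ≤ n := by exact_mod_cast hn
  have hn0 : (0 : ℝ) < n := by linarith
  have hlog : 0 < Real.log n := Real.log_pos (by linarith)
  have hs0 : 0 < Real.sqrt (Real.sqrt n) := Real.sqrt_pos.2 (Real.sqrt_pos.2 hn0)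
  have hsn : Real.sqrt n ^ 2 = n := Real.sq_sqrt hn0.le
  have hs2 : Real.sqrt (Real.sqrt n) ^ 2 = Real.sqrt n := Real.sq_sqrt (Real.sqrt_nonneg _)
  have hsq1 : 1 ≤ Real.sqrt n := by rw [Real.one_le_sqrt]; linarith
  have hs1 : 1 ≤ Real.sqrt (Real.sqrt n) := by rw [Real.one_le_sqrt]; exact hsq1
  have e1 : (n : ℝ) ^ (3 / 4 : ℝ) = Real.sqrt (Real.sqrt n) ^ 3 := by
    rw [Real.sqrt_eq_rpow, Real.sqrt_eq_rpow, ← Real.rpow_mul hn0.le, ← Real.rpow_natCast,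
      ← Real.rpow_mul hn0.le]
    norm_num
  have e2 : Real.log n ^ (3 / 2 : ℝ) = Real.log n * Real.sqrt (Real.log n) := by
    rw [Real.sqrt_eq_rpow]
    conv_rhs => rw [← Real.rpow_one (Real.log n)]
    rw [← Real.rpow_mul hlog.le, ← Real.rpow_add hlog]
    norm_num
  rw [e1, e2]
  set s : ℝ := Real.sqrt (Real.sqrt n) with hs
  set Lr : ℝ := Real.log n * Real.sqrt (Real.log n) with hLr
  have hs4 : s ^ 4 = (n : ℝ) := by
    have h0 : s ^ 4 = (s ^ 2) ^ 2 := by ring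
    rw [h0, hs2, hsn]
  by_cases hbig : K ≤ n
  · obtain ⟨d, hd, hH⟩ := hn₀ n ((le_max_left _ _).trans ((le_max_left _ _).trans hbig))
    have h3 : 3 ≤ n := (le_max_right _ _).trans hbig
    have hn1 := hn₁ n ((le_max_right _ _).trans ((le_max_left _ _).trans hbig))
    have hL : 1 ≤ Real.log n := by
      rw [Real.le_log_iff_exp_le hn0]
      have h4 : (3 : ℝ) ≤ n := by exact_mod_cast h3
      have := Real.exp_one_lt_d9
      linarith
    obtain ⟨A, hA1, hA2⟩ := large n d hd hH hL hn1.1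
    refine ⟨A, hA1, fun x => ?_⟩
    obtain ⟨hA3, hA4⟩ := hA2 (WithLp.toLp 2 x)
    have hLr0 : 0 ≤ Lr := by positivity
    have hε1 : 44 * Lr / s ≤ 1 := by
      rw [div_le_one hs0]
      have h5 : (44 * Lr) ^ 4 ≤ s ^ 4 := by
        rw [hs4]
        have h6 : Real.sqrt (Real.log n) ^ 2 = Real.log n := Real.sq_sqrt hlog.le
        calc (44 * Lr) ^ 4 = 44 ^ 4 * (Real.log n ^ 4 * (Real.sqrt (Real.log n) ^ 2) ^ 2) := by
              rw [hLr]; ring
          _ = 44 ^ 4 * Real.log n ^ 6 := by rw [h6]; ring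
          _ ≤ n := hn1.2
      exact le_of_pow_le_pow_left₀ (by norm_num) hs0.le h5
    set ε : ℝ := 44 * Lr / s with hε
    have hε0 : 0 ≤ ε := by positivity
    have hx2 : ‖WithLp.toLp 2 x‖ ^ 2 = ∑ j, x j ^ 2 := norm_sq_eq (WithLp.toLp 2 x)
    have ha2 : ‖Matrix.toEuclideanLin A (WithLp.toLp 2 x)‖ ^ 2 =
        ∑ i, (∑ j, A i j * x j) ^ 2 := norm_toE A (WithLp.toLp 2 x)
    set a : ℝ := ‖Matrix.toEuclideanLin A (WithLp.toLp 2 x)‖ with ha
    set u : ℝ := Real.sqrt n * ‖WithLp.toLp 2 x‖ with hu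
    have hu0 : 0 ≤ u := by positivity
    have ha0 : 0 ≤ a := norm_nonneg _
    have hu2 : u ^ 2 = n * ∑ j, x j ^ 2 := by rw [hu, mul_pow, hsn, hx2]
    rw [← ha2, ← hu2]
    have h7 : a ^ 2 ≤ ((1 + ε) * u) ^ 2 := pow_le_pow_left₀ ha0 hA4 2
    have h8 : ((1 - ε) * u) ^ 2 ≤ a ^ 2 :=
      pow_le_pow_left₀ (mul_nonneg (by linarith) hu0) hA3 2
    have hu20 : 0 ≤ u ^ 2 := sq_nonneg u
    have h9 : ε ^ 2 * u ^ 2 ≤ ε * u ^ 2 := by
      apply mul_le_mul_of_nonneg_right _ hu20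
      calc ε ^ 2 = ε * ε := sq ε
        _ ≤ ε * 1 := mul_le_mul_of_nonneg_left hε1 hε0
        _ = ε := mul_one ε
    have h9' : 0 ≤ ε ^ 2 * u ^ 2 := by positivity
    have h10 : |a ^ 2 - u ^ 2| ≤ 3 * ε * u ^ 2 := by
      rw [abs_le]
      have e3 : ((1 + ε) * u) ^ 2 = u ^ 2 + 2 * (ε * u ^ 2) + ε ^ 2 * u ^ 2 := by ring
      have e4 : ((1 - ε) * u) ^ 2 = u ^ 2 - 2 * (ε * u ^ 2) + ε ^ 2 * u ^ 2 := by ring
      have e5 : 0 ≤ ε * u ^ 2 := by positivity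
      constructor <;> linarith
    refine h10.trans ?_
    have h11 : 3 * ε * u ^ 2 = 132 * Lr * s ^ 3 * ∑ j, x j ^ 2 := by
      rw [hu2, ← hs4, hε]
      field_simp
      ring
    rw [h11]
    apply mul_le_mul_of_nonneg_right _ (Finset.sum_nonneg fun _ _ => sq_nonneg _)
    apply mul_le_mul_of_nonneg_right _ (by positivity)
    exact mul_le_mul_of_nonneg_right (le_max_left _ _) hLr0
  · have hnK : (n : ℝ) ≤ K := by
      have : n ≤ K := by omega
      exact_mod_cast this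
    refine ⟨fun _ _ => 1, fun _ _ => Or.inl rfl, fun x => ?_⟩
    have hlog2 : (1 : ℝ) / 2 ≤ Real.log n := by
      have h1 := Real.log_two_gt_d9
      have h2 := Real.log_le_log (by norm_num) hnR
      linarith
    have hsl : (1 : ℝ) / 2 ≤ Real.sqrt (Real.log n) := by
      apply Real.le_sqrt_of_sq_le
      linarith
    have h7 : (1 : ℝ) / 4 ≤ Lr := by
      calc (1 : ℝ) / 4 = 1 / 2 * (1 / 2) := by norm_num
        _ ≤ _ := mul_le_mul hlog2 hsl (by norm_num) hlog.le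
    have hs3 : 1 ≤ s ^ 3 := one_le_pow₀ hs1
    have hx0 : 0 ≤ ∑ j, x j ^ 2 := Finset.sum_nonneg fun _ _ => sq_nonneg _
    have h8 : (n : ℝ) ^ 2 ≤ C * Lr * s ^ 3 := by
      have hCK : 4 * (n : ℝ) ^ 2 ≤ C := by
        have h9 : (4 : ℝ) * K ^ 2 ≤ C := le_max_right _ _
        have h10 : (n : ℝ) ^ 2 ≤ (K : ℝ) ^ 2 := pow_le_pow_left₀ hn0.le hnK 2
        linarith
      calc (n : ℝ) ^ 2 = 4 * (n : ℝ) ^ 2 * (1 / 4) * 1 := by ring
        _ ≤ C * Lr * s ^ 3 := by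
            apply mul_le_mul _ hs3 (by norm_num) (by positivity)
            exact mul_le_mul hCK h7 (by norm_num) (by positivity)
    refine le_trans ?_ (mul_le_mul_of_nonneg_right h8 hx0)
    have hup : ∑ i : Fin n, (∑ j, (1 : ℝ) * x j) ^ 2 ≤ (n : ℝ) ^ 2 * ∑ j, x j ^ 2 := by
      have h9 := n2_mulVec_le (fun _ _ => (1 : ℝ) : Matrix (Fin n) (Fin n) ℝ) x
      refine h9.trans (le_of_eq ?_)
      simp
      unfold n2
      ring
    have hlo : 0 ≤ ∑ i : Fin n, (∑ j, (1 : ℝ) * x j) ^ 2 :=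
      Finset.sum_nonneg fun _ _ => sq_nonneg _
    have hn2 : (n : ℝ) * ∑ j, x j ^ 2 ≤ (n : ℝ) ^ 2 * ∑ j, x j ^ 2 := by
      apply mul_le_mul_of_nonneg_right _ hx0
      nlinarith
    have hn3 : 0 ≤ (n : ℝ) * ∑ j, x j ^ 2 := by positivity
    rw [abs_le]
    constructor <;> linarith

end Pool.Agent.TH432.NI
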